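import Pool.Agent.Lib_helper35.OF.Mat
import Pool.Agent.Lib_helper35.OF.Cyc
import Pool.Agent.Lib_helper72.OF.P3
import Pool.Agent.Lib_helper35.OF.Defs
import Pool.Agent.Lib_helper28.TE28.Res
import Pool.Agent.Lib_helper99.OL.MainAll

/-!
# One Frobenius element: the assembly
-/

set_option autoImplicit false

namespace Pool.Agent.EFF

open NumberField Polynomial Topology
open Pool.Agent.TT Pool.Agent.TF Pool.Agent.KT Pool.Agent.KP Pool.Agent.OF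

/-- A power of `τ` is near to `1`. -/
theorem ofa_pow {L : Type} [Field L] [NumberField L] [Algebra L Qbar] {p : ℕ} [hp : Fact p.Prime]
    {d : ℕ} (ρ : (Qbar ≃ₐ[L] Qbar) →* Matrix (Fin d) (Fin d) ℂ_[p]) (hρ : Continuous ρ)
    (τ : Qbar ≃ₐ[L] Qbar) : ∃ n : ℕ, 0 < n ∧ ∀ i j, ‖(ρ τ ^ n - 1) i j‖ < 1 := by
  have hgal := ofr_galois L
  have hcomp : CompactSpace (Qbar ≃ₐ[L] Qbar) := inferInstance
  have hopen : {u : Qbar ≃ₐ[L] Qbar | ∀ i j, ‖(ρ u - 1) i j‖ < 1} ∈ 𝓝 (1 : Qbar ≃ₐ[L] Qbar) := by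
    apply IsOpen.mem_nhds
    · have h1 : {u : Qbar ≃ₐ[L] Qbar | ∀ i j, ‖(ρ u - 1) i j‖ < 1} =
          ⋂ i, ⋂ j, {u : Qbar ≃ₐ[L] Qbar | ‖(ρ u - 1) i j‖ < 1} := by
        ext u
        simp
      rw [h1]
      apply isOpen_iInter_of_finite
      intro i
      apply isOpen_iInter_of_finite
      intro j
      apply isOpen_lt _ continuous_const
      have h3 : Continuous fun M : Matrix (Fin d) (Fin d) ℂ_[p] => M i j :=
        (continuous_apply j).comp (continuous_apply i)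
      exact (h3.comp (hρ.sub continuous_const)).norm
    · intro i j
      rw [map_one, sub_self, Matrix.zero_apply, norm_zero]
      exact zero_lt_one
  obtain ⟨E, hE, hEU⟩ := (krullTopology_mem_nhds_one_iff _ _ _).1 hopen
  have hV : IsOpen (E.fixingSubgroup : Set (Qbar ≃ₐ[L] Qbar)) :=
    IntermediateField.fixingSubgroup_isOpen E
  have hfin : Finite ((Qbar ≃ₐ[L] Qbar) ⧸ E.fixingSubgroup) :=
    Subgroup.quotient_finite_of_isOpen _ hV
  have hidx : E.fixingSubgroup.index ≠ 0 := Subgroup.index_ne_zero_of_finite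
  obtain ⟨n, hn0, -, hn⟩ := Subgroup.exists_pow_mem_of_index_ne_zero hidx τ
  refine ⟨n, hn0, ?_⟩
  rw [← map_pow]
  exact hEU hn

/-- The elements near to `1` are closed under powers. -/
theorem ofa_near_pow {p : ℕ} [hp : Fact p.Prime] {d : ℕ} {r : ℝ} (hr : 0 ≤ r)
    {N : Matrix (Fin d) (Fin d) ℂ_[p]} (hN : EntLe N 1) (h : EntLe (N - 1) r) (j : ℕ) :
    EntLe (N ^ j - 1) r := by
  induction j with
  | zero =>
    intro a b
    rw [pow_zero, sub_self, Matrix.zero_apply, norm_zero]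
    exact hr
  | succ j ih =>
    have h1 : N ^ (j + 1) - 1 = N ^ j * (N - 1) + (N ^ j - 1) := by
      rw [mul_sub, mul_one, ← pow_succ, sub_add_sub_cancel]
    rw [h1]
    apply EntLe.add _ ih
    have h2 : EntLe (N ^ j) 1 := by
      have h3 := EntLe.pow zero_le_one hN j
      rwa [one_pow] at h3
    have h4 := EntLe.mul zero_le_one hr h2 h
    rwa [one_mul] at h4

/-- **The assembly**: an element that fixes only the roots of unity of order `p ^ (κ + t)` can be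
replaced by one that fixes all roots of unity of `p`-power order. -/
theorem ofa_replace {L : Type} [Field L] [NumberField L] [Algebra L Qbar] {p : ℕ}
    [hp : Fact p.Prime] {d D k e f h κ t : ℕ} (hf : 0 < f)
    (ρ : (Qbar ≃ₐ[L] Qbar) →* Matrix (Fin d) (Fin d) ℂ_[p]) (hρ : Continuous ρ)
    (A : Subring ℂ_[p]) (hρA : ∀ σ i j, ρ σ i j ∈ A)
    (hA : ∀ a ∈ A, ‖a‖ = 1 ∨ ‖a‖ ^ (h * f) ≤ ‖(p : ℂ_[p])‖) (hκ : κ ≠ 0) (hpκ : κ + 2 ≤ p * κ)
    {τ : Qbar ≃ₐ[L] Qbar} (hfix : ∀ z : Qbar, z ^ p ^ κ = 1 → τ z = z)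
    (hτ : ∃ z : Qbar, z ^ p ^ (κ + 1) = 1 ∧ τ z ≠ z) (hdt : d * h ≤ p ^ t)
    {g : Qbar ≃ₐ[L] Qbar} (hg : ∀ z : Qbar, z ^ p ^ (κ + t) = 1 → g z = z)
    (hfar : FarFromRoots (ρ g) D k e f) :
    ∃ g' : Qbar ≃ₐ[L] Qbar, FixesRoots p g' ∧ FarFromRoots (ρ g') D k e f := by
  have hp1 : ‖(p : ℂ_[p])‖ < 1 := Pool.Agent.RF.norm_p_lt p
  have hp0 : 0 < ‖(p : ℂ_[p])‖ := by
    rw [norm_pos_iff]
    exact_mod_cast hp.out.ne_zero
  have hhf : h * f ≠ 0 := by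
    intro h0
    rcases hA 0 (zero_mem A) with h1 | h1
    · rw [norm_zero] at h1
      exact zero_ne_one h1
    · rw [h0, pow_zero] at h1
      exact absurd hp1 (not_lt.mpr h1)
  have hh : h ≠ 0 := fun h0 => hhf (by rw [h0, zero_mul])
  set r : ℝ := ‖(p : ℂ_[p])‖ ^ ((f : ℝ)⁻¹) with hr
  have hr0 : 0 < r := Real.rpow_pos_of_pos hp0 _
  have hrf : r ^ f = ‖(p : ℂ_[p])‖ := by
    rw [hr]
    exact Real.rpow_inv_natCast_pow hp0.le hf.ne'
  have hr1 : r < 1 := by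
    have h1 : r ^ f < 1 ^ f := by
      rw [hrf, one_pow]
      exact hp1
    exact lt_of_pow_lt_pow_left₀ f zero_le_one h1
  have hrp : ‖(p : ℂ_[p])‖ ≤ r := by
    rw [← hrf]
    exact pow_le_of_le_one hr0.le hr1.le hf.ne'
  set δ : ℝ := r ^ ((h : ℝ)⁻¹) with hδ
  have hδ0 : 0 < δ := Real.rpow_pos_of_pos hr0 _
  have hδh : δ ^ h = r := by
    rw [hδ]
    exact Real.rpow_inv_natCast_pow hr0.le hh
  have hδ1 : δ ≤ 1 := by
    have h1 : δ ^ h ≤ 1 ^ h := by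
      rw [hδh, one_pow]
      exact hr1.le
    exact le_of_pow_le_pow_left₀ hh zero_le_one h1
  have hAδ : ∀ a ∈ A, ‖a‖ = 1 ∨ ‖a‖ ≤ δ := by
    intro a ha
    rcases hA a ha with h1 | h1
    · exact Or.inl h1
    · right
      have h2 : ‖a‖ ^ (h * f) ≤ δ ^ (h * f) := by
        rw [pow_mul δ, hδh, hrf]
        exact h1
      exact le_of_pow_le_pow_left₀ hhf hδ0.le h2
  have hA1 : ∀ a ∈ A, ‖a‖ ≤ 1 := fun a ha => (hAδ a ha).elim le_of_eq fun h1 => h1.trans hδ1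
  obtain ⟨n, hn0, hn⟩ := ofa_pow ρ hρ τ
  obtain ⟨a, M, hM, hnM⟩ := Nat.exists_eq_pow_mul_and_not_dvd hn0.ne' p hp.out.ne_one
  have hT : EntLe (ρ τ ^ (M * p ^ t) - 1) r := by
    apply of_mat (a := a) hp.out hrp hp1 hδ0.le hδ1 hδh.le A hAδ hdt (ρ τ) (hρA τ)
    rw [mul_comm, ← hnM]
    exact hn
  refine ofr_replace ρ hρ (fun i j => hA1 _ (hρA g i j)) hr0.le hr1.le hrf hfar ?_
  intro N
  obtain ⟨j, hj⟩ := of_gal hp.out hκ hpκ hM hfix hτ hg N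
  set v : Qbar ≃ₐ[L] Qbar := (τ ^ (M * p ^ t)) ^ j with hv
  have hvr : EntLe (ρ v - 1) r := by
    rw [hv, map_pow, map_pow]
    apply ofa_near_pow hr0.le _ hT
    rw [← map_pow]
    exact fun i j => hA1 _ (hρA _ i j)
  refine ⟨v⁻¹, ?_, ?_⟩
  · have h1 : ρ v⁻¹ - 1 = ρ v⁻¹ * -(ρ v - 1) := by
      rw [mul_neg, mul_sub, mul_one, ← map_mul, inv_mul_cancel, map_one, neg_sub]
    rw [h1]
    have h2 := EntLe.mul (N := ρ v⁻¹) (N' := -(ρ v - 1)) zero_le_one hr0.le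
      (fun i j => hA1 _ (hρA _ i j)) (EntLe.neg hvr)
    rwa [one_mul] at h2
  · intro z hz
    have h1 : (v⁻¹ z) ^ p ^ N = 1 := by rw [← map_pow, hz, map_one]
    change g (v⁻¹ z) = z
    rw [← hj _ h1]
    change (v * v⁻¹) z = z
    rw [mul_inv_cancel]
    rfl

/-- **One Frobenius element at one level decides all higher levels.** -/
theorem ofa_main {K : Type} [Field K] [NumberField K] [Algebra K Qbar] {p : ℕ} [hp : Fact p.Prime]
    (θ : Qbar →+* ℂ_[p]) {m c : ℕ} (hpm : ¬ p ∣ m) {ζ : 𝓞 K} (hζ : IsPrimitiveRoot ζ (m * p ^ c))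
    {k : ℕ} (hck : c ≤ k) {d e b : ℕ} (hd : d < p ^ (b + 1)) {s : ℕ}
    (S : Fin s → TowerStratum K) {ω : 𝓞 (level K p k)} (hω : IsPrimitiveRoot ω (p ^ k))
    (h : OneFrobenius θ m c ζ k b ω S d e) :
    ∀ n, k ≤ n → 0 < n → ∀ j, ¬ ManyTateClasses p (m * p ^ c) ζ S d j e n := by
  obtain ⟨ρ, g, hρ, hbot, hg, hbig⟩ := h
  have hnf : NumberField (level K p k) := level_nf hp.out k
  obtain ⟨g', hg', hbig'⟩ : ∃ g' : Qbar ≃ₐ[level K p k] Qbar, FixesRoots p g' ∧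
      FarFromRoots (ρ g') (d * m.totient) (k + b) e (p ^ c).totient := by
    rcases hg with hg | ⟨A, h, κ, t, hκ, hpκ, hdt, ⟨τ, hfix, hτ⟩, hρA, hA, hg⟩
    · exact ⟨g, hg, hbig⟩
    · exact ofa_replace (Nat.totient_pos.mpr (pow_pos hp.out.pos c)) ρ hρ A hρA hA hκ.ne' hpκ hfix hτ
        hdt hg hbig
  exact eff_tate_all θ hpm hζ hck hd S hω ρ hρ hbot hg' hbig'

end Pool.Agent.EFF
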